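import Pool.Graph.R_seed8.Results.MP_4a3daa_an.NotMinimal

/-!
# The space of order `n`: continuum many subspaces, none of which embeds into another

The library proves that the space of order `n` is not minimal: it does not embed into the closed
span of a sparse subsequence of its basis. Here: it has continuum many closed infinite-dimensional
subspaces such that none of them embeds isomorphically into another, and the whole space embeds
into none of them.
-/

set_option autoImplicit false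

open Filter Topology
open Pool.Agent.R269.SM

namespace Pool.Agent.Results.MP_4a3daa_an.ContinuumAntichain

section X

variable {k : ℕ} {X : Type} [NormedAddCommGroup X] [NormedSpace ℝ X]
  {J : Fam (k + 1) →ₗᵢ[ℝ] X}

theorem nrm_res_le (n : ℕ) (M : Set ℕ) (x : C00) : nrm n (res M x) ≤ nrm n x := by
  refine nrm_le fun f hf => ?_
  rw [ev_res]
  rcases WW_res M hf with h | h
  · rw [h]
    have h0 : ev 0 x = 0 := by simp [ev]
    rw [h0]
    exact nrm_nonneg n x
  · exact le_nrm h x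

/-- restriction to a set of coordinates, on the finitely supported sequences -/
noncomputable def resF (n : ℕ) (M : Set ℕ) : Fam n →L[ℝ] Fam n :=
  LinearMap.mkContinuous
    { toFun := fun x => mkF n (res M x.seq) (by
        classical
        rw [res_apply, seq_apply_zero]
        split_ifs <;> rfl)
      map_add' := fun x y => Subtype.ext (by
        change res M (x + y).seq = res M x.seq + res M y.seq
        rw [seq_add, res_add])
      map_smul' := fun c x => Subtype.ext (by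
        change res M (c • x).seq = c • res M x.seq
        rw [seq_smul, res_smul]) } 1
    (fun x => by
      rw [one_mul]
      exact nrm_res_le n M x.seq)

theorem seq_resF (n : ℕ) (M : Set ℕ) (x : Fam n) : (resF n M x).seq = res M x.seq := rfl

/-- The closed span of the basis vectors with indices in `M`. -/
noncomputable def sub (J : Fam (k + 1) →ₗᵢ[ℝ] X) (M : Set ℕ) : Submodule ℝ X :=
  (Submodule.span ℝ ((fun i => J (uF (k + 1) i)) '' M)).topologicalClosure

theorem unit_sub {M : Set ℕ} {i : ℕ} (hi : i ∈ M) : J (uF (k + 1) i) ∈ sub J M :=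
  Submodule.le_topologicalClosure _ (Submodule.subset_span ⟨i, hi, rfl⟩)

/-- the basis projection onto the coordinates in `M` -/
noncomputable def proj (J : Fam (k + 1) →ₗᵢ[ℝ] X) (M : Set ℕ) [CompleteSpace X] : X →L[ℝ] X :=
  (J.toContinuousLinearMap.comp (resF (k + 1) M)).extend J.toContinuousLinearMap

theorem proj_J [CompleteSpace X] (hJ : DenseRange J) (M : Set ℕ) (a : Fam (k + 1)) :
    proj J M (J a) = J (resF (k + 1) M a) :=
  ContinuousLinearMap.extend_eq (f := J.toContinuousLinearMap.comp (resF (k + 1) M))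
    (e := J.toContinuousLinearMap) hJ J.isometry.isUniformInducing a

theorem J_mem_sub {M : Set ℕ} {a : Fam (k + 1)} (h : ∀ i, a.seq i ≠ 0 → i ∈ M) :
    J a ∈ sub J M := by
  classical
  have h2 : a = ∑ i ∈ a.seq.support, a.seq i • uF (k + 1) i := by
    refine Subtype.ext ?_
    change a.seq = (∑ i ∈ a.seq.support, a.seq i • uF (k + 1) i : Fam (k + 1)).seq
    rw [seq_sum]
    have h3 : ∀ i ∈ a.seq.support,
        (a.seq i • uF (k + 1) i).seq = Finsupp.single i (a.seq i) := by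
      intro i hi
      have hi1 : 1 ≤ i := by
        rcases Nat.eq_zero_or_pos i with rfl | h
        · rw [Finsupp.mem_support_iff, seq_apply_zero] at hi
          exact absurd rfl hi
        · exact h
      rw [seq_smul, seq_uF hi1, e, Finsupp.smul_single, smul_eq_mul, mul_one]
    rw [Finset.sum_congr rfl h3]
    exact (Finsupp.sum_single a.seq).symm
  rw [h2, map_sum]
  refine Submodule.sum_mem _ fun i hi => ?_
  rw [map_smul]
  exact Submodule.smul_mem _ _ (unit_sub (h i (Finsupp.mem_support_iff.1 hi)))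

theorem proj_mem [CompleteSpace X] (hJ : DenseRange J) (M : Set ℕ) (x : X) :
    proj J M x ∈ sub J M := by
  classical
  refine hJ.induction_on (p := fun x => proj J M x ∈ sub J M) x ?_ fun a => ?_
  · exact (Submodule.isClosed_topologicalClosure _).preimage (proj J M).continuous
  · rw [proj_J hJ]
    refine J_mem_sub fun i hi => ?_
    rw [seq_resF, res_apply] at hi
    by_contra hM
    rw [if_neg hM] at hi
    exact hi rfl

theorem proj_unit [CompleteSpace X] (hJ : DenseRange J) {M : Set ℕ} {i : ℕ} (hi : i ∈ M) :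
    proj J M (J (uF (k + 1) i)) = J (uF (k + 1) i) := by
  classical
  rw [proj_J hJ]
  congr 1
  refine Subtype.ext ?_
  change res M (uF (k + 1) i).seq = (uF (k + 1) i).seq
  ext j
  rw [res_apply]
  split_ifs with h
  · rfl
  · rcases Nat.eq_zero_or_pos i with rfl | hi1
    · rw [uF_zero, seq_zero]; rfl
    · rw [seq_uF_apply _ _ _ hi1, if_neg]
      rintro rfl
      exact h hi

theorem co_sub (hJ : DenseRange J) {M : Set ℕ} (hM : ∀ i ∈ M, 1 ≤ i) {y : X} (hy : y ∈ sub J M)
    {i : ℕ} (hi : i ∉ M) : co J i y = 0 := by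
  have h1 : sub J M ≤ LinearMap.ker (co J i : X →ₗ[ℝ] ℝ) := by
    refine Submodule.topologicalClosure_minimal _ ?_ ?_
    · rw [Submodule.span_le]
      rintro _ ⟨m, hm, rfl⟩
      change co J i (J (uF (k + 1) m)) = 0
      rw [co_unit hJ (hM m hm), if_neg]
      rintro rfl
      exact hi hm
    · exact ContinuousLinearMap.isClosed_ker (co J i)
  exact h1 hy

theorem hd_sub (hJ : DenseRange J) {M : Set ℕ} (hM : ∀ i ∈ M, 1 ≤ i) {y : X} (hy : y ∈ sub J M)
    {j : ℕ} {Q : Finset ℕ} (hQ : ∀ i, i ∈ Q ↔ (i ∈ M ∧ i < j)) :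
    hd J j y = ∑ i ∈ Q, co J i y • J (uF (k + 1) i) := by
  classical
  unfold hd
  symm
  refine Finset.sum_subset ?_ ?_
  · intro i hi
    exact Finset.mem_range.2 ((hQ i).1 hi).2
  · intro i hi hi'
    rw [Finset.mem_range] at hi
    rw [co_sub hJ hM hy (fun h => hi' ((hQ i).2 ⟨h, hi⟩)), zero_smul]

theorem sub_infinite (hJ : DenseRange J) {M : Set ℕ} (hM : ∀ i ∈ M, 1 ≤ i) (hinf : M.Infinite) :
    ¬ FiniteDimensional ℝ (sub J M) := by
  classical
  intro hfin
  have hli : LinearIndependent ℝ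
      fun m : M => (⟨J (uF (k + 1) m.1), unit_sub m.2⟩ : sub J M) := by
    rw [linearIndependent_iff']
    intro s g hg m hm
    have h1 : ∑ i ∈ s, g i • J (uF (k + 1) i.1) = 0 := by
      have := congrArg (Submodule.subtype _) hg
      rw [map_sum] at this
      simpa using this
    have h2 := congrArg (co J m.1) h1
    rw [map_sum, map_zero] at h2
    have h3 : ∀ i ∈ s, co J m.1 (g i • J (uF (k + 1) i.1)) = if i = m then g i else 0 := by
      intro i _
      rw [map_smul, co_unit hJ (hM i.1 i.2), smul_eq_mul]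
      by_cases h : i = m
      · rw [if_pos h, if_pos (by rw [h]), mul_one]
      · rw [if_neg h, if_neg fun h' => h (Subtype.ext h'), mul_zero]
    rw [Finset.sum_congr rfl h3, Finset.sum_ite_eq', if_pos hm] at h2
    exact h2
  have hf := hli.finite
  exact hinf (Set.toFinite M)

/-- `M` has long runs of indices before whose squares `M'` has only few indices. -/
def Dom (M M' : Set ℕ) : Prop :=
  ∀ N D : ℕ, ∃ A Q : Finset ℕ, (∀ j ∈ A, j ∈ M ∧ N ≤ j ∧ 1 ≤ j ∧
    ∀ i, i ∈ Q ↔ (i ∈ M' ∧ i < j ^ 2)) ∧ (2 * ((Q.card + 1) * D) + 1) ^ Q.card < A.card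

/-- There is no isomorphic embedding of the closed span of the basis vectors in `M` into the
closed span of the basis vectors in `M'`. -/
theorem no_emb [CompleteSpace X] (hJ : DenseRange J) {M M' : Set ℕ} (hM' : ∀ i ∈ M', 1 ≤ i)
    (hdom : Dom M M') (T₀ : sub J M →L[ℝ] X) (hT₀ : ∀ x, T₀ x ∈ sub J M') {K : ℝ} (hK : 0 < K)
    (hb : ∀ x, ‖x‖ ≤ K * ‖T₀ x‖) : False := by
  classical
  obtain ⟨T, hT⟩ : ∃ T : X →L[ℝ] X, T = T₀.comp ((proj J M).codRestrict (sub J M)
    (proj_mem hJ M)) := ⟨_, rfl⟩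
  have hTY : ∀ x, T x ∈ sub J M' := fun x => by rw [hT]; exact hT₀ _
  have hTu : ∀ j, (hj : j ∈ M) → T (J (uF (k + 1) j)) = T₀ ⟨J (uF (k + 1) j), unit_sub hj⟩ := by
    intro j hj
    rw [hT, ContinuousLinearMap.comp_apply]
    congr 1
    exact Subtype.ext (proj_unit hJ hj)
  obtain ⟨δ, hδ⟩ : ∃ δ : ℝ, δ = 1 / (4 * K) := ⟨_, rfl⟩
  have hδ0 : 0 < δ := by rw [hδ]; positivity
  obtain ⟨N, hN⟩ := claimB hJ T hδ0
  obtain ⟨D, hD⟩ := exists_nat_gt (‖T‖ / δ + 1)
  obtain ⟨A, Q, hAQ, hcard⟩ := hdom N D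
  obtain ⟨q, hq⟩ : ∃ q, q = Q.card := ⟨_, rfl⟩
  rw [← hq] at hcard
  have hm0 : (0 : ℝ) < (q + 1 : ℕ) := by exact_mod_cast Nat.succ_pos q
  obtain ⟨R, hR⟩ : ∃ R : ℤ, R = (((q + 1) * D : ℕ) : ℤ) := ⟨_, rfl⟩
  obtain ⟨B, hB⟩ : ∃ B : Finset (Q → ℤ),
      B = Fintype.piFinset fun _ : Q => Finset.Icc (-R) R := ⟨_, rfl⟩
  have hBcard : B.card = (2 * ((q + 1) * D) + 1) ^ q := by
    rw [hB, Fintype.card_piFinset]
    simp only [Int.card_Icc, Finset.prod_const, Finset.card_univ, Fintype.card_coe, ← hq]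
    congr 1
    rw [hR]
    omega
  have hAcard : B.card < A.card := by rw [hBcard]; exact hcard
  have hQ1 : ∀ r ∈ Q, 1 ≤ r := by
    intro r hr
    have hne : A.Nonempty := Finset.card_pos.1 (by omega)
    obtain ⟨j, hj⟩ := hne
    exact hM' r (((hAQ j hj).2.2.2 r).1 hr).1
  have hmaps : ∀ j ∈ A, (fun r : Q =>
      ⌊((q + 1 : ℕ) : ℝ) / δ * co J r.1 (T (J (uF (k + 1) j)))⌋) ∈ B := by
    intro j _
    rw [hB, Fintype.mem_piFinset]
    intro r
    have h1 : |co J r.1 (T (J (uF (k + 1) j)))| ≤ ‖T‖ := by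
      have h2 := hat_le hJ (unit_mem (𝒮 := Schreier (k + 1)) (hQ1 r.1 r.2))
        (T (J (uF (k + 1) j)))
      have h3 : hat J (Finsupp.single r.1 1 : C00) (T (J (uF (k + 1) j)))
          = co J r.1 (T (J (uF (k + 1) j))) := by
        rw [hat_apply, Finsupp.support_single _ one_ne_zero, Finset.sum_singleton,
          Finsupp.single_eq_same, one_mul]
      rw [h3] at h2
      refine h2.trans ((T.le_opNorm _).trans ?_)
      calc ‖T‖ * ‖J (uF (k + 1) j)‖ ≤ ‖T‖ * 1 :=
            mul_le_mul_of_nonneg_left (norm_unit_le j) (norm_nonneg _)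
        _ = ‖T‖ := mul_one _
    have h4 : |((q + 1 : ℕ) : ℝ) / δ * co J r.1 (T (J (uF (k + 1) j)))|
        ≤ ((q + 1 : ℕ) : ℝ) * (D - 1) := by
      rw [abs_mul, abs_of_pos (by positivity : (0 : ℝ) < ((q + 1 : ℕ) : ℝ) / δ)]
      calc ((q + 1 : ℕ) : ℝ) / δ * |co J r.1 (T (J (uF (k + 1) j)))|
          ≤ ((q + 1 : ℕ) : ℝ) / δ * ‖T‖ := mul_le_mul_of_nonneg_left h1 (by positivity)
        _ = ((q + 1 : ℕ) : ℝ) * (‖T‖ / δ) := by ring
        _ ≤ ((q + 1 : ℕ) : ℝ) * (D - 1) := mul_le_mul_of_nonneg_left (by linarith) hm0.le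
    rw [abs_le] at h4
    have hm1 : (1 : ℝ) ≤ ((q + 1 : ℕ) : ℝ) := by exact_mod_cast Nat.succ_le_succ (Nat.zero_le q)
    rw [Finset.mem_Icc, Int.le_floor, hR]
    constructor
    · push_cast
      push_cast at h4 hm1
      nlinarith [h4.1]
    · have h5 : ((⌊((q + 1 : ℕ) : ℝ) / δ * co J r.1 (T (J (uF (k + 1) j)))⌋ : ℤ) : ℝ)
          ≤ (((((q + 1) * D : ℕ) : ℤ)) : ℝ) := by
        refine (Int.floor_le _).trans (h4.2.trans ?_)
        push_cast
        push_cast at hm1
        nlinarith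
      exact_mod_cast h5
  obtain ⟨j, hj, j', hj', hne, heq⟩ := Finset.exists_ne_map_eq_of_card_lt_of_maps_to hAcard hmaps
  obtain ⟨bM, b1, b0, b2⟩ := hAQ j hj
  obtain ⟨cM, c1, c0, c2⟩ := hAQ j' hj'
  have e1 := hN j b1
  have e2 := hN j' c1
  rw [hd_sub hJ hM' (hTY _) b2] at e1
  rw [hd_sub hJ hM' (hTY _) c2] at e2
  obtain ⟨u, hu⟩ : ∃ u, u = T (J (uF (k + 1) j)) := ⟨_, rfl⟩
  obtain ⟨v, hv⟩ : ∃ v, v = T (J (uF (k + 1) j')) := ⟨_, rfl⟩
  rw [← hu] at e1
  rw [← hv] at e2
  have e3 : ‖∑ r ∈ Q, co J r u • J (uF (k + 1) r)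
      - ∑ r ∈ Q, co J r v • J (uF (k + 1) r)‖ ≤ δ := by
    rw [← Finset.sum_sub_distrib]
    refine (norm_sum_le _ _).trans ?_
    have h1 : ∀ r ∈ Q, ‖co J r u • J (uF (k + 1) r)
        - co J r v • J (uF (k + 1) r)‖ ≤ δ / ((q + 1 : ℕ) : ℝ) := by
      intro r hr
      rw [← sub_smul, norm_smul, Real.norm_eq_abs]
      have h2 := congrFun heq ⟨r, hr⟩
      simp only at h2
      rw [← hu, ← hv] at h2
      have h3 := Int.abs_sub_lt_one_of_floor_eq_floor h2
      rw [← mul_sub, abs_mul, abs_of_pos (by positivity : (0 : ℝ) < ((q + 1 : ℕ) : ℝ) / δ)] at h3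
      have h4 : |co J r u - co J r v| ≤ δ / ((q + 1 : ℕ) : ℝ) := by
        rw [le_div_iff₀ hm0]
        have h5 : ((q + 1 : ℕ) : ℝ) / δ * |co J r u - co J r v| * δ < 1 * δ :=
          mul_lt_mul_of_pos_right h3 hδ0
        have h6 : ((q + 1 : ℕ) : ℝ) / δ * |co J r u - co J r v| * δ
            = |co J r u - co J r v| * ((q + 1 : ℕ) : ℝ) := by field_simp
        rw [h6, one_mul] at h5
        exact h5.le
      calc |co J r u - co J r v| * ‖J (uF (k + 1) r)‖
          ≤ |co J r u - co J r v| * 1 :=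
            mul_le_mul_of_nonneg_left (norm_unit_le _) (abs_nonneg _)
        _ ≤ _ := by rw [mul_one]; exact h4
    refine (Finset.sum_le_sum h1).trans ?_
    rw [Finset.sum_const, ← hq, nsmul_eq_mul, ← mul_div_assoc, div_le_iff₀ hm0]
    push_cast
    nlinarith
  have e4 : ‖u - v‖ ≤ 3 * δ := by
    obtain ⟨p, hp⟩ : ∃ p, p = ∑ r ∈ Q, co J r u • J (uF (k + 1) r) := ⟨_, rfl⟩
    obtain ⟨p', hp'⟩ : ∃ p', p' = ∑ r ∈ Q, co J r v • J (uF (k + 1) r) := ⟨_, rfl⟩
    rw [← hp] at e1 e3
    rw [← hp'] at e2 e3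
    have : u - v = (u - p) + (p - p') - (v - p') := by abel
    rw [this]
    have h1 := norm_sub_le ((u - p) + (p - p')) (v - p')
    have h2 := norm_add_le (u - p) (p - p')
    linarith
  have e5 : 1 ≤ ‖J (uF (k + 1) j) - J (uF (k + 1) j')‖ := by
    rw [← map_sub, J.norm_map, norm_fam]
    have h1 := abs_apply_le_nrm (k + 1) (uF (k + 1) j - uF (k + 1) j').seq b0
    have h2 : (uF (k + 1) j - uF (k + 1) j').seq j = 1 := by
      rw [sub_eq_add_neg, seq_add, seq_neg, Finsupp.add_apply, Finsupp.neg_apply,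
        seq_uF_apply _ _ _ b0, seq_uF_apply _ _ _ c0, if_pos rfl, if_neg (Ne.symm hne)]
      norm_num
    rw [h2, abs_one] at h1
    exact h1
  have e6 := hb (⟨J (uF (k + 1) j), unit_sub bM⟩ - ⟨J (uF (k + 1) j'), unit_sub cM⟩)
  rw [map_sub, ← hTu j bM, ← hTu j' cM, ← hu, ← hv] at e6
  have e6' : ‖J (uF (k + 1) j) - J (uF (k + 1) j')‖ ≤ K * ‖u - v‖ := e6
  have e7 : K * ‖u - v‖ ≤ K * (3 * δ) := mul_le_mul_of_nonneg_left e4 hK.le
  have e8 : K * (3 * δ) = 3 / 4 := by rw [hδ]; field_simp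
  linarith

end X

section positions

/-- rapidly increasing starting points of the windows -/
def pt : ℕ → ℕ
  | 0 => 1
  | m + 1 => (2 * ((2 * pt m + 1) * pt m) + 1) ^ (2 * pt m) + (2 * pt m) ^ 2 + 1

theorem pt_pos : ∀ m, 1 ≤ pt m
  | 0 => le_rfl
  | m + 1 => by rw [pt]; omega

theorem pt_sq (m : ℕ) : (2 * pt m) ^ 2 < pt (m + 1) := by rw [pt]; omega

theorem pt_big (m : ℕ) : (2 * ((2 * pt m + 1) * pt m) + 1) ^ (2 * pt m) < pt (m + 1) := by
  rw [pt]; omega

theorem two_pt_lt (m : ℕ) : 2 * pt m < pt (m + 1) := by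
  have h1 := pt_sq m
  have h2 : 2 * pt m ≤ (2 * pt m) ^ 2 := Nat.le_self_pow (by norm_num) _
  omega

theorem pt_mono : StrictMono pt := strictMono_nat_of_lt_succ fun m => by
  have := two_pt_lt m
  omega

/-- the windows -/
def win (m : ℕ) : Finset ℕ := Finset.Ioc (pt m) (2 * pt m)

/-- the positions in the windows with numbers in `S` -/
def pos (S : Set ℕ) : Set ℕ := {i | ∃ m ∈ S, i ∈ win m}

theorem pos_pos {S : Set ℕ} : ∀ i ∈ pos S, 1 ≤ i := by
  rintro i ⟨m, _, hi⟩
  rw [win, Finset.mem_Ioc] at hi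
  omega

theorem mem_pos {S : Set ℕ} {m j : ℕ} (hm : m ∈ S) (hj : j ∈ win m) : j ∈ pos S := ⟨m, hm, hj⟩

theorem pos_infinite {S : Set ℕ} (hS : S.Infinite) : (pos S).Infinite := by
  have hinj : Function.Injective fun m => pt m + 1 := fun a b h =>
    pt_mono.injective (Nat.succ_injective h)
  refine (hS.image hinj.injOn).mono ?_
  rintro _ ⟨m, hm, rfl⟩
  refine ⟨m, hm, ?_⟩
  have := pt_pos m
  show pt m + 1 ∈ win m
  rw [win, Finset.mem_Ioc]
  omega

theorem dom_of {M S' R : Set ℕ} (hR : R.Infinite) (hRM : ∀ m ∈ R, ∀ j ∈ win m, j ∈ M)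
    (hRS : ∀ m ∈ R, m ∉ S') : Dom M (pos S') := by
  classical
  intro N D
  obtain ⟨m, hm, hlt⟩ := hR.exists_gt (N + D + 1)
  obtain ⟨m0, rfl⟩ : ∃ m0, m = m0 + 1 := ⟨m - 1, by omega⟩
  have hle : m0 ≤ pt m0 := pt_mono.le_apply
  have hle1 : m0 + 1 ≤ pt (m0 + 1) := pt_mono.le_apply
  have hpos := pt_pos m0
  refine ⟨win (m0 + 1), (Finset.Icc 1 (2 * pt m0)).filter (· ∈ pos S'), ?_, ?_⟩
  · intro j hj
    have hjM := hRM _ hm j hj
    rw [win, Finset.mem_Ioc] at hj
    refine ⟨hjM, by omega, by omega, fun i => ?_⟩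
    rw [Finset.mem_filter, Finset.mem_Icc]
    constructor
    · rintro ⟨⟨_, h2⟩, h3⟩
      refine ⟨h3, ?_⟩
      have h4 := two_pt_lt m0
      have h5 : j ≤ j ^ 2 := Nat.le_self_pow (by norm_num) _
      omega
    · rintro ⟨h1, h2⟩
      refine ⟨⟨pos_pos i h1, ?_⟩, h1⟩
      obtain ⟨r, hr, hi⟩ := h1
      have hne : r ≠ m0 + 1 := by
        rintro rfl
        exact hRS _ hm hr
      rw [win, Finset.mem_Ioc] at hi
      rcases lt_or_gt_of_ne hne with h | h
      · have h3 := pt_mono.monotone (show r ≤ m0 by omega)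
        omega
      · have h3 := pt_mono.monotone (show m0 + 1 + 1 ≤ r by omega)
        have h4 := pt_sq (m0 + 1)
        have h5 : j ^ 2 ≤ (2 * pt (m0 + 1)) ^ 2 := Nat.pow_le_pow_left hj.2 2
        omega
  · obtain ⟨q, hq⟩ : ∃ q, q = ((Finset.Icc 1 (2 * pt m0)).filter (· ∈ pos S')).card := ⟨_, rfl⟩
    have h1 : q ≤ 2 * pt m0 := by
      rw [hq]
      refine (Finset.card_filter_le _ _).trans ?_
      rw [Nat.card_Icc]
      omega
    rw [← hq]
    have h2 : (win (m0 + 1)).card = pt (m0 + 1) := by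
      rw [win, Nat.card_Ioc]
      omega
    rw [h2]
    refine lt_of_le_of_lt ?_ (pt_big m0)
    have h3 : D ≤ pt m0 := by omega
    have h4 : (q + 1) * D ≤ (2 * pt m0 + 1) * pt m0 := Nat.mul_le_mul (by omega) h3
    exact (Nat.pow_le_pow_left (by omega) q).trans (Nat.pow_le_pow_right (by omega) h1)

/-- an almost disjoint family of infinite sets of natural numbers -/
def ad (x : ℕ → Bool) : Set ℕ :=
  Set.range (fun n : ℕ => Encodable.encode ((List.range n).map x))

theorem ad_infinite (x : ℕ → Bool) : (ad x).Infinite := by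
  refine Set.infinite_range_of_injective fun m n h => ?_
  have h1 := Encodable.encode_injective h
  have h2 := congrArg List.length h1
  simpa using h2

theorem ad_inter (x y : ℕ → Bool) (h : x ≠ y) : (ad x ∩ ad y).Finite := by
  obtain ⟨d, hd⟩ := Function.ne_iff.1 h
  refine ((Set.finite_Iic d).image
    (fun n : ℕ => Encodable.encode ((List.range n).map x))).subset ?_
  rintro _ ⟨⟨n, rfl⟩, ⟨m, hm⟩⟩
  refine ⟨n, ?_, rfl⟩
  by_contra hn
  have hn' : d < n := not_le.1 hn
  have h1 := Encodable.encode_injective hm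
  have h2 := congrArg List.length h1
  have h3 : m = n := by simpa using h2
  subst h3
  have h4 : ∀ i ∈ List.range m, y i = x i := List.map_inj_left.1 h1
  exact hd (h4 d (List.mem_range.2 hn')).symm

theorem ad_diff (x y : ℕ → Bool) (h : x ≠ y) : (ad x \ ad y).Infinite := by
  intro hf
  refine ad_infinite x ((hf.union (ad_inter x y h)).subset ?_)
  intro p hp
  by_cases hy : p ∈ ad y
  · exact Or.inr ⟨hp, hy⟩
  · exact Or.inl ⟨hp, hy⟩

attribute [irreducible] pt win pos ad

end positions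

/-- `E` embeds isomorphically into `F`. -/
def Embeds (E F : Type) [NormedAddCommGroup E] [NormedSpace ℝ E] [NormedAddCommGroup F]
    [NormedSpace ℝ F] : Prop :=
  ∃ (T : E →L[ℝ] F) (K : ℝ), ∀ x, ‖x‖ ≤ K * ‖T x‖

/-- `Y` is the range of a projection of norm at most one on `X`. -/
def OneComplemented {X : Type} [NormedAddCommGroup X] [NormedSpace ℝ X] (Y : Submodule ℝ X) :
    Prop :=
  ∃ P : X →L[ℝ] X, (∀ v, ‖P v‖ ≤ ‖v‖) ∧ (∀ v, P v ∈ Y) ∧ ∀ v ∈ Y, P v = v

theorem one_compl {k : ℕ} {X : Type} [NormedAddCommGroup X] [NormedSpace ℝ X] [CompleteSpace X]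
    {J : Fam (k + 1) →ₗᵢ[ℝ] X} (hJ : DenseRange J) (M : Set ℕ) : OneComplemented (sub J M) := by
  refine ⟨proj J M, fun v => ?_, proj_mem hJ M, ?_⟩
  · refine hJ.induction_on (p := fun v => ‖proj J M v‖ ≤ ‖v‖) v ?_ fun a => ?_
    · exact isClosed_le (proj J M).continuous.norm continuous_norm
    · rw [proj_J hJ, J.norm_map, J.norm_map]
      exact nrm_res_le (k + 1) M a.seq
  · have h1 : sub J M ≤ LinearMap.ker ((proj J M - ContinuousLinearMap.id ℝ X : X →L[ℝ] X) :
        X →ₗ[ℝ] X) := by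
      refine Submodule.topologicalClosure_minimal _ ?_ ?_
      · rw [Submodule.span_le]
        rintro _ ⟨m, hm, rfl⟩
        change proj J M (J (uF (k + 1) m)) - J (uF (k + 1) m) = 0
        rw [proj_unit hJ hm, sub_self]
      · exact ContinuousLinearMap.isClosed_ker _
    intro v hv
    exact sub_eq_zero.1 (h1 hv)

theorem not_embeds {k : ℕ} {X : Type} [NormedAddCommGroup X] [NormedSpace ℝ X]
    [CompleteSpace X] {J : Fam (k + 1) →ₗᵢ[ℝ] X} (hJ : DenseRange J) (M S' : Set ℕ)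
    (hdom : Dom M (pos S')) : ¬ Embeds (sub J M) (sub J (pos S')) := by
  rintro ⟨T, K, hK⟩
  refine no_emb hJ (M' := pos S') (fun i hi => pos_pos i hi) hdom
    ((sub J (pos S')).subtypeL.comp T) (fun x => (T x).2) (K := max K 1)
    (lt_of_lt_of_le one_pos (le_max_right _ _)) fun x => ?_
  refine (hK x).trans ?_
  exact mul_le_mul_of_nonneg_right (le_max_left _ _) (norm_nonneg (T x))

theorem ad_compl (x : ℕ → Bool) : (ad x)ᶜ.Infinite := by
  have hne : (fun i => !x i) ≠ x := by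
    intro h'
    have := congrFun h' 0
    simp at this
  exact (ad_diff _ _ hne).mono fun i hi => hi.2

theorem family {k : ℕ} {X : Type} [NormedAddCommGroup X] [NormedSpace ℝ X] [CompleteSpace X]
    {u : ℕ → X} (h : IsXn (k + 1) X u) : ∃ P : (ℕ → Bool) → Set ℕ, (∀ x, ∀ i ∈ P x, 1 ≤ i) ∧
        ∃ Y : (ℕ → Bool) → Submodule ℝ X,
          (∀ x, Y x = (Submodule.span ℝ (u '' P x)).topologicalClosure ∧
            ¬ FiniteDimensional ℝ (Y x) ∧ OneComplemented (Y x) ∧ ¬ Embeds X (Y x)) ∧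
          ∀ x y, x ≠ y → ¬ Embeds (Y x) (Y y) := by
  have hJ := iso_dense h
  obtain ⟨J, hJeq⟩ : ∃ J : Fam (k + 1) →ₗᵢ[ℝ] X, J = iso h := ⟨_, rfl⟩
  rw [← hJeq] at hJ
  have hu : ∀ i, 1 ≤ i → J (uF (k + 1) i) = u i := by
    intro i hi
    rw [hJeq]
    change Finsupp.linearCombination ℝ u (uF (k + 1) i).seq = u i
    rw [seq_uF hi, e, Finsupp.linearCombination_single, one_smul]
  have h1 : ∀ x : ℕ → Bool, sub J (pos (ad x)) =
      (Submodule.span ℝ (u '' pos (ad x))).topologicalClosure := by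
    intro x
    have h2 : (fun i => J (uF (k + 1) i)) '' pos (ad x) = u '' pos (ad x) :=
      Set.image_congr fun i hi => hu i (pos_pos i hi)
    rw [sub, h2]
  have h3 : ∀ x : ℕ → Bool, ¬ Embeds X (sub J (pos (ad x))) := by
    rintro x ⟨T, K, hK⟩
    have hd : Dom Set.univ (pos (ad x)) := dom_of (ad_compl x) (fun m _ j _ => Set.mem_univ j)
      (fun m hm => hm)
    exact not_embeds hJ Set.univ (ad x) hd
      ⟨T.comp (sub J Set.univ).subtypeL, K, fun v => hK v.1⟩
  have h4 : ∀ x y : ℕ → Bool, x ≠ y → ¬ Embeds (sub J (pos (ad x))) (sub J (pos (ad y))) := by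
    intro x y hxy
    have hd : Dom (pos (ad x)) (pos (ad y)) := dom_of (ad_diff x y hxy)
      (fun m hm j hj => mem_pos hm.1 hj) (fun m hm => hm.2)
    exact not_embeds hJ _ _ hd
  have h5 : ∀ x : ℕ → Bool, ¬ FiniteDimensional ℝ (sub J (pos (ad x))) := fun x =>
    sub_infinite hJ (fun i hi => pos_pos i hi) (pos_infinite (ad_infinite x))
  exact ⟨fun x => pos (ad x), fun x i hi => pos_pos i hi, fun x => sub J (pos (ad x)),
    fun x => ⟨h1 x, h5 x, one_compl hJ _, h3 x⟩, h4⟩

/-- **Continuum many subspaces, none of which embeds into another.** For every `n ≥ 1` the space of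
order `n` exists, and (any version of) it, `X`, has a family of closed infinite-dimensional
subspaces, indexed by the points of the Cantor space, such that: every member of the family is the
closed span of a subsequence of the unit vector basis and the range of a projection of norm at most
one; the space `X` embeds into no member; and no member embeds into a different member. -/
theorem result : ∀ n : ℕ, 1 ≤ n →
    (∃ (X : Type) (_ : NormedAddCommGroup X) (_ : NormedSpace ℝ X) (_ : CompleteSpace X)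
      (u : ℕ → X), IsXn n X u) ∧
    ∀ (X : Type) [NormedAddCommGroup X] [NormedSpace ℝ X] [CompleteSpace X] (u : ℕ → X),
      IsXn n X u → ∃ P : (ℕ → Bool) → Set ℕ, (∀ x, ∀ i ∈ P x, 1 ≤ i) ∧
        ∃ Y : (ℕ → Bool) → Submodule ℝ X,
          (∀ x, Y x = (Submodule.span ℝ (u '' P x)).topologicalClosure ∧
            ¬ FiniteDimensional ℝ (Y x) ∧ OneComplemented (Y x) ∧ ¬ Embeds X (Y x)) ∧
          ∀ x y, x ≠ y → ¬ Embeds (Y x) (Y y) := by
  intro n hn
  obtain ⟨k, rfl⟩ : ∃ k, n = k + 1 := ⟨n - 1, by omega⟩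
  refine ⟨⟨_, inferInstance, inferInstance, inferInstance, _, exists_Xn (k + 1)⟩, ?_⟩
  intro X _ _ _ u h
  exact family h

end Pool.Agent.Results.MP_4a3daa_an.ContinuumAntichain
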